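import Pool.Agent.H46.SW.Root

/-!
REG: the minimal elements of a regular class of conditions. The class has to be closed upwards,
a hypothesis added here.
-/

set_option linter.unusedVariables false
set_option synthInstance.maxSize 100000

namespace SW

/-- REG with the hypothesis that the class is closed upwards -/
def REGUStmt : Prop := ∀ (M : Type) [SetStr M] [ZF M] (K θ p k : M), E k om →
  ∀ C : M → Prop, Cl C → (∀ q, C q → E q (cohP K θ) ∧ Sub p q) →
    (∀ q q', C q → E q' (cohP K θ) → Sub q q' → C q') →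
    (∀ q, E q (cohP K θ) → Sub p q →
      (∀ q', E q' (cohP K θ) → Sub q q' → ∃ r, Sub q' r ∧ C r) → C q) →
    Fnt (sep (cohP K θ) (fun q => C q ∧ card q = k ∧ ∀ q', Sub q' q → C q' → q' = q))

theorem reg_up (hfin : FINStmt) (hroot : ROOTStmt) : REGUStmt := by
  intro M _ _ K θ p k hk C hC hCP hup hreg
  by_contra hT'
  have hf := hfin M
  have hcl : Cl (fun q : M => C q ∧ card q = k ∧ ∀ q', Sub q' q → C q' → q' = q) := by
    have := hC
    infer_instance
  obtain ⟨r, hr, hpr, hrf, hcmp⟩ := hroot M K θ _ p k hk (fun q hq => by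
    rw [mem_sep' hcl] at hq
    exact ⟨hq.1, (hCP q hq.2.1).2, hq.2.2.1⟩) hT'
  have hCr : C r := by
    refine hreg r hr hpr fun q' hq' hrq' => ?_
    by_contra hno
    apply hrf
    refine hf.sub (hcmp q' hq' hrq') fun q hq => ?_
    rw [mem_sep' inferInstance] at hq ⊢
    refine ⟨hq.1, hq.2, ?_⟩
    rintro ⟨s, hs, hqs, hq's⟩
    have h1 := hq.1
    rw [mem_sep' hcl] at h1
    exact hno ⟨s, hq's, hup q s h1.2.1 hs hqs⟩
  apply hrf
  refine hf.sub (hf.ins (a := r) hf.emp) fun q hq => ?_
  rw [mem_sep' inferInstance] at hq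
  have h1 := hq.1
  rw [mem_sep' hcl] at h1
  rw [mem_ins]
  exact Or.inr (h1.2.2.2 r hq.2 hCr).symm

end SW
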