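import Pool.Agent.H35.SW.CDefs

/-!
ROOT: the root of an infinite set of finite conditions of the same size.
-/

set_option linter.unusedVariables false
set_option synthInstance.maxSize 100000

namespace SW

section
variable {M : Type} [SetStr M] [ZF M]

theorem Cmp_df (K θ : M) : Cl2 (fun p q : M => Cmp K θ p q) := by unfold Cmp; infer_instance

instance {K θ : M} {n : ℕ} {t s : (Fin n → M) → M} [ht : DfT t] [hs : DfT s] :
    Df (fun v => Cmp K θ (t v) (s v)) := (Cmp_df K θ).comp2 ht hs

/-- parts of conditions are conditions -/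
theorem cohP_sub (hf : FinFacts M) {K θ q r : M} (hq : E q (cohP K θ)) (h : Sub r q) :
    E r (cohP K θ) := by
  rw [mem_cohP] at hq ⊢
  exact ⟨h.trans hq.1, hf.sub hq.2.1 h, fun x i j hi hj => hq.2.2 x i j (h _ hi) (h _ hj)⟩

theorem mem_two {i : M} : E i (two : M) ↔ i = emp ∨ i = sing emp := by
  unfold two
  rw [mem_upair]

theorem root_aux (hf : FinFacts M) (K θ T p k : M) (hk : E k om)
    (hT : ∀ q, E q T → E q (cohP K θ) ∧ Sub p q ∧ card q = k) (hT' : ¬ Fnt T) :
    ∃ r, E r (cohP K θ) ∧ Sub p r ∧ ¬ Fnt (sep T (fun q => Sub r q)) ∧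
      ∀ q', E q' (cohP K θ) → Sub r q' → Fnt (sep T (fun q => Sub r q ∧ ¬ Cmp K θ q q')) := by
  -- the class of candidates
  have hmax := nat_max (M := M) (C := fun n => ∃ r, (E r (cohP K θ) ∧ Sub p r ∧
    ¬ Fnt (sep T (fun q => Sub r q))) ∧ card r = n) inferInstance hk ?_ ?_
  · obtain ⟨n, hn, ⟨r, ⟨hr, hpr, hrf⟩, hrn⟩, hm⟩ := hmax
    refine ⟨r, hr, hpr, hrf, fun q' hq' hrq' => ?_⟩
    have hq'2 := mem_cohP.1 hq'
    -- the key finiteness
    have key : ∀ x i j, E (opair x j) q' → E i two → i ≠ j →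
        Fnt (sep T (fun q => Sub (ins (opair x i) r) q)) := by
      intro x i j hxj hi hij
      by_contra hcon
      have hnot : ¬ E (opair x i) r := fun h => hij (hq'2.2.2 x i j (hrq' _ h) hxj)
      -- some member of `T` contains the larger set
      have hex : ∃ q, E q T ∧ Sub (ins (opair x i) r) q := by
        by_contra hno
        apply hcon
        have : sep T (fun q => Sub (ins (opair x i) r) q) = emp := by
          apply eq_emp
          intro z hz
          rw [mem_sep] at hz
          exact hno ⟨z, hz.1, hz.2⟩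
        rw [this]
        exact hf.emp
      obtain ⟨q, hqT, hq⟩ := hex
      have h1 : E (ins (opair x i) r) (cohP K θ) := cohP_sub hf (hT q hqT).1 hq
      have h2 := hm (card (ins (opair x i) r)) (hf.card_om (mem_cohP.1 h1).2.1)
        ⟨_, ⟨h1, fun z hz => by rw [mem_ins]; exact Or.inl (hpr z hz), hcon⟩, rfl⟩
      rw [hf.card_ins (mem_cohP.1 hr).2.1 hnot, hrn] at h2
      exact not_mem_self n (h2 n (by rw [mem_suc]; exact Or.inr rfl))
    -- the bad set is covered
    have hB : Fn1 (fun z : M => sep T (fun q => ∃ x i j, z = opair x j ∧ E i two ∧ i ≠ j ∧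
      Sub (ins (opair x i) r) q)) := inferInstance
    refine hf.sub (hf.sUn (hf.img (fun z : M => sep T (fun q => ∃ x i j, z = opair x j ∧
      E i two ∧ i ≠ j ∧ Sub (ins (opair x i) r) q)) hB hq'2.2.1) ?_) ?_
    · intro y hy
      rw [mem_img' hB] at hy
      obtain ⟨z, hz, rfl⟩ := hy
      obtain ⟨x, j, hx, hj, rfl⟩ := mem_prod'.1 (hq'2.1 z hz)
      have h3 : ∀ i, E i two → Fnt (sep T (fun q => i ≠ j ∧ Sub (ins (opair x i) r) q)) := by
        intro i hi
        by_cases hij : i = j
        · have : sep T (fun q => i ≠ j ∧ Sub (ins (opair x i) r) q) = emp := by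
            apply eq_emp
            intro z hz
            rw [mem_sep] at hz
            exact hz.2.1 hij
          rw [this]
          exact hf.emp
        · refine hf.sub (key x i j hz hi hij) fun w hw => ?_
          rw [mem_sep] at hw ⊢
          exact ⟨hw.1, hw.2.2⟩
      refine hf.sub (hf.bun (h3 emp (mem_two.2 (Or.inl rfl))) (h3 (sing emp)
        (mem_two.2 (Or.inr rfl)))) fun w hw => ?_
      rw [mem_sep] at hw
      obtain ⟨hwT, x', i, j', he, hi, hij, hs⟩ := hw
      rw [opair_inj] at he
      obtain ⟨rfl, rfl⟩ := he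
      rw [mem_bun, mem_sep, mem_sep]
      rcases mem_two.1 hi with rfl | rfl
      · exact Or.inl ⟨hwT, hij, hs⟩
      · exact Or.inr ⟨hwT, hij, hs⟩
    · intro q hq
      rw [mem_sep] at hq
      obtain ⟨hqT, hrq, hnc⟩ := hq
      obtain ⟨hqP, hpq, hqk⟩ := hT q hqT
      have hq2 := mem_cohP.1 hqP
      have h4 : ∃ x i j, E (opair x i) q ∧ E (opair x j) q' ∧ i ≠ j := by
        by_contra hno
        apply hnc
        refine ⟨bun q q', ?_, fun z hz => by rw [mem_bun]; exact Or.inl hz,
          fun z hz => by rw [mem_bun]; exact Or.inr hz⟩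
        rw [mem_cohP]
        refine ⟨fun z hz => ?_, hf.bun hq2.2.1 hq'2.2.1, fun x i j hi hj => ?_⟩
        · rw [mem_bun] at hz
          rcases hz with hz | hz
          · exact hq2.1 z hz
          · exact hq'2.1 z hz
        · rw [mem_bun] at hi hj
          rcases hi with hi | hi
          · rcases hj with hj | hj
            · exact hq2.2.2 x i j hi hj
            · by_contra hij
              exact hno ⟨x, i, j, hi, hj, hij⟩
          · rcases hj with hj | hj
            · by_contra hij
              exact hno ⟨x, j, i, hj, hi, fun h => hij h.symm⟩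
            · exact hq'2.2.2 x i j hi hj
      obtain ⟨x, i, j, hi, hj, hij⟩ := h4
      rw [mem_sUn]
      refine ⟨_, (mem_img' hB).2 ⟨opair x j, hj, rfl⟩, ?_⟩
      rw [mem_sep]
      refine ⟨hqT, x, i, j, rfl, (mem_prod.1 (hq2.1 _ hi)).2, hij, fun w hw => ?_⟩
      rw [mem_ins] at hw
      rcases hw with hw | rfl
      · exact hrq w hw
      · exact hi
  · -- `p` is a candidate
    have hex : ∃ q, E q T := by
      by_contra hno
      apply hT'
      rw [eq_emp (x := T) fun z hz => hno ⟨z, hz⟩]
      exact hf.emp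
    obtain ⟨q, hq⟩ := hex
    have hp : E p (cohP K θ) := cohP_sub hf (hT q hq).1 (hT q hq).2.1
    refine ⟨card p, hf.card_om (mem_cohP.1 hp).2.1, p, ⟨hp, Sub.refl p, fun h => hT' ?_⟩, rfl⟩
    refine hf.sub h fun z hz => ?_
    rw [mem_sep]
    exact ⟨hz, (hT z hz).2.1⟩
  · rintro n hn ⟨r, ⟨hr, hpr, hrf⟩, rfl⟩
    have hex : ∃ q, E q T ∧ Sub r q := by
      by_contra hno
      apply hrf
      have : sep T (fun q => Sub r q) = emp := by
        apply eq_emp
        intro z hz
        rw [mem_sep] at hz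
        exact hno ⟨z, hz.1, hz.2⟩
      rw [this]
      exact hf.emp
    obtain ⟨q, hqT, hq⟩ := hex
    obtain ⟨hqP, hpq, hqk⟩ := hT q hqT
    rw [← hqk]
    exact hf.card_le (mem_cohP.1 hqP).2.1 hq

end

theorem root (hfin : FINStmt) : ROOTStmt := fun M _ _ K θ T p k hk hT hT' =>
  root_aux (hfin M) K θ T p k hk hT hT'

end SW
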